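import Mathlib
import Pool.Agent.L7h80.MG.Stm

/-!
Elimination for multihomogeneous systems (part `S_ELIM` of the project MG): the cone over the image of
a multiprojective variety under the map given by all monomials of a multidegree is closed and defined
over the base field.
-/

set_option autoImplicit false

open MvPolynomial Pool.Agent.Y129.TA Pool.Agent.Y129.TB
open Pool.Agent.W476.TP (Sig wt MH Rel)

namespace Pool.Agent.L7h76.MG

open Pool.Agent.L7h80.MG

variable {r : ℕ} {m : Fin r → ℕ}

lemma weight_apply (β : Sig m →₀ ℕ) (κ : Fin r) :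
    Finsupp.weight (wt m) β κ = ∑ i, β ⟨κ, i⟩ := by
  rw [Finsupp.weight_apply, Finsupp.sum_fintype _ _ (by simp), Finset.sum_apply]
  rw [Fintype.sum_sigma]
  rw [Finset.sum_eq_single κ]
  · apply Finset.sum_congr rfl
    intro i _
    simp [wt]
  · intro κ' _ h
    apply Finset.sum_eq_zero
    intro i _
    simp [wt, Ne.symm h]
  · intro h
    exact absurd (Finset.mem_univ κ) h

instance finite_Mon (D : Fin r → ℕ) : Finite (Mon m D) := by
  have h : ({α : Sig m →₀ ℕ | Finsupp.weight (wt m) α = D}).Finite := by
    apply (Set.finite_Iic (Finsupp.equivFunOnFinite.symm fun x : Sig m => D x.1)).subset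
    intro α hα
    rw [Set.mem_Iic]
    intro x
    have h1 : ∑ i, α ⟨x.1, i⟩ = D x.1 := by
      rw [← weight_apply, hα]
    have h2 : α ⟨x.1, x.2⟩ ≤ ∑ i, α ⟨x.1, i⟩ :=
      Finset.single_le_sum (f := fun i => α ⟨x.1, i⟩) (fun _ _ => Nat.zero_le _)
        (Finset.mem_univ x.2)
    rw [h1] at h2
    exact h2
  exact h.to_subtype

section

variable {k : Type} [Field k] {κG : Type} (G : κG → MvPolynomial (Sig m) k) (D : Fin r → ℕ)

/-- the equations, with the coordinates `w` in the coefficients -/
noncomputable def gen : κG ⊕ (Mon m D × Mon m D) → MvPolynomial (Sig m) (MvPolynomial (Mon m D) k) :=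
  Sum.elim (fun j => map C (G j))
    (fun p => C (X p.1) * monomial p.2.1 1 - C (X p.2) * monomial p.1.1 1)

/-- their multidegrees -/
def bdeg (b : κG → Fin r → ℕ) : κG ⊕ (Mon m D × Mon m D) → Fin r → ℕ :=
  Sum.elim b fun _ => D

lemma gen_hom {b : κG → Fin r → ℕ} (hb : ∀ j, MH (G j) (b j))
    (s : κG ⊕ (Mon m D × Mon m D)) : IsWeightedHomogeneous (wt m) (gen G D s) (bdeg D b s) := by
  rcases s with j | ⟨μ, ν⟩
  · intro d hd
    simp only [gen, Sum.elim_inl, coeff_map] at hd
    apply hb j
    intro h
    rw [h, map_zero] at hd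
    exact hd rfl
  · simp only [gen, bdeg, Sum.elim_inr]
    apply IsWeightedHomogeneous.sub
    · exact (isWeightedHomogeneous_monomial _ _ _ ν.2).C_mul _
    · exact (isWeightedHomogeneous_monomial _ _ _ μ.2).C_mul _

variable {L : Type} [Field L] [Algebra k L]

/-- the specialisation -/
noncomputable def sp (w : Mon m D → L) : MvPolynomial (Mon m D) k →+* L :=
  (aeval w : MvPolynomial (Mon m D) k →ₐ[k] L).toRingHom

lemma sp_apply (w : Mon m D → L) (a : MvPolynomial (Mon m D) k) :
    sp (k := k) D w a = aeval w a := rfl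

lemma sp_C (w : Mon m D → L) : (sp (k := k) D w).comp C = algebraMap k L := by
  ext x
  rw [RingHom.comp_apply, sp_apply, aeval_C]

lemma eval_mon (y : Sig m → L) {D' : Fin r → ℕ} (β : Mon m D') :
    eval y (monomial β.1 (1 : L)) = mon y β := by
  rw [eval_monomial, one_mul, Finsupp.prod_fintype _ _ (by simp)]
  rfl

lemma eval_gen (w : Mon m D → L) (y : Sig m → L) (s : κG ⊕ (Mon m D × Mon m D)) :
    eval y (map (sp (k := k) D w) (gen G D s)) =
      Sum.elim (fun j => aeval y (G j)) (fun p => w p.1 * mon y p.2 - w p.2 * mon y p.1) s := by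
  rcases s with j | ⟨μ, ν⟩
  · simp only [gen, Sum.elim_inl]
    rw [map_map, sp_C, eval_map]
    rfl
  · simp only [gen, Sum.elim_inr]
    rw [map_sub, map_mul, map_mul, map_C, map_C, map_monomial, map_monomial, map_one, eval_sub,
      eval_mul, eval_mul, eval_C, eval_C, eval_mon, eval_mon, sp_apply, sp_apply, aeval_X, aeval_X]

lemma SV_iff (w : Mon m D → L) : w ∈ SV (L := L) G D ↔
    ∃ y : Sig m → L, Rel y ∧ ∀ s, eval y (map (sp (k := k) D w) (gen G D s)) = 0 := by
  constructor
  · rintro ⟨y, h1, h2, h3⟩
    refine ⟨y, h1, fun s => ?_⟩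
    rw [eval_gen]
    rcases s with j | ⟨μ, ν⟩
    · exact h2 j
    · simp only [Sum.elim_inr]
      rw [h3 μ ν, sub_self]
  · rintro ⟨y, h1, h2⟩
    refine ⟨y, h1, fun j => ?_, fun μ ν => ?_⟩
    · have := h2 (Sum.inl j)
      rw [eval_gen] at this
      exact this
    · have := h2 (Sum.inr (μ, ν))
      rw [eval_gen] at this
      exact sub_eq_zero.1 this

end

/-- a monomial of multidegree `(N, ..., N)` lies in the power of the product of the irrelevant
ideals -/
lemma mono_mem {L : Type} [Field L] (N : ℕ) (β : Mon m fun _ => N) :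
    monomial β.1 (1 : L) ∈ (∏ κ : Fin r, Ideal.span (Set.range fun i : Fin (m κ + 1) =>
      (X ⟨κ, i⟩ : MvPolynomial (Sig m) L))) ^ N := by
  rw [monomial_eq, C_1, one_mul, Finsupp.prod_fintype _ _ (by simp), Fintype.prod_sigma,
    ← Finset.prod_pow]
  apply Ideal.prod_mem_prod
  intro κ _
  have h1 : ∑ i, β.1 ⟨κ, i⟩ = N := by
    rw [← weight_apply, β.2]
  have h2 : (Ideal.span (Set.range fun i : Fin (m κ + 1) =>
      (X ⟨κ, i⟩ : MvPolynomial (Sig m) L))) ^ N = (Ideal.span (Set.range fun i : Fin (m κ + 1) =>
      (X ⟨κ, i⟩ : MvPolynomial (Sig m) L))) ^ (∑ i, β.1 ⟨κ, i⟩) := by rw [h1]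
  rw [h2, ← Finset.prod_pow_eq_pow_sum]
  apply Ideal.prod_mem_prod
  intro i _
  exact Ideal.pow_mem_pow (Ideal.subset_span (Set.mem_range_self i)) _

/-- Nullstellensatz: if the equations have no relevant zero, then all monomials of some multidegree
`(N, ..., N)` are in the ideal -/
lemma exists_N {L : Type} [Field L] [IsAlgClosed L] {S : Type}
    (g : S → MvPolynomial (Sig m) L) (h : ∀ y : Sig m → L, (∀ s, eval y (g s) = 0) → ¬ Rel y) :
    ∃ N : ℕ, ∀ β : Mon m fun _ => N, monomial β.1 (1 : L) ∈ Ideal.span (Set.range g) := by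
  set B : Ideal (MvPolynomial (Sig m) L) := ∏ κ : Fin r, Ideal.span (Set.range
    fun i : Fin (m κ + 1) => (X ⟨κ, i⟩ : MvPolynomial (Sig m) L)) with hB
  have h1 : B ≤ (Ideal.span (Set.range g)).radical := by
    intro f hf
    rw [← vanishingIdeal_zeroLocus_eq_radical (K := L), mem_vanishingIdeal_iff]
    intro y hy
    rw [mem_zeroLocus_iff] at hy
    have h2 : ¬ Rel y := by
      apply h
      intro s
      have := hy (g s) (Ideal.subset_span (Set.mem_range_self s))
      rw [← this, ← coe_aeval_eq_eval]
      rfl
    simp only [Pool.Agent.W476.TP.Rel, not_forall, not_exists, not_not] at h2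
    obtain ⟨κ, hκ⟩ := h2
    have h3 : f ∈ Ideal.span (Set.range fun i : Fin (m κ + 1) =>
        (X ⟨κ, i⟩ : MvPolynomial (Sig m) L)) := by
      have h4 : B ≤ Finset.univ.inf fun κ : Fin r => Ideal.span (Set.range
        fun i : Fin (m κ + 1) => (X ⟨κ, i⟩ : MvPolynomial (Sig m) L)) := Ideal.prod_le_inf
      exact (h4.trans (Finset.inf_le (Finset.mem_univ κ))) hf
    have h5 : Ideal.span (Set.range fun i : Fin (m κ + 1) =>
        (X ⟨κ, i⟩ : MvPolynomial (Sig m) L)) ≤ RingHom.ker (aeval y : MvPolynomial (Sig m) L →ₐ[L] L) := by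
      rw [Ideal.span_le]
      rintro _ ⟨i, rfl⟩
      rw [SetLike.mem_coe, RingHom.mem_ker, aeval_X]
      exact hκ i
    exact h5 h3
  obtain ⟨N, hN⟩ := Ideal.exists_pow_le_of_le_radical_of_fg h1 (IsNoetherian.noetherian B)
  exact ⟨N, fun β => hN (mono_mem N β)⟩

/-- multihomogeneous expressions -/
lemma span_comp {L : Type} [Field L] {S : Type} (g : S → MvPolynomial (Sig m) L)
    (δ : S → Fin r → ℕ) (hg : ∀ s, IsWeightedHomogeneous (wt m) (g s) (δ s)) (N : Fin r → ℕ)
    {f : MvPolynomial (Sig m) L} (hf : f ∈ Ideal.span (Set.range g)) :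
    weightedHomogeneousComponent (wt m) N f ∈ Submodule.span L (Set.range
      fun p : {p : S × (Sig m →₀ ℕ) // Finsupp.weight (wt m) p.2 + δ p.1 = N} =>
        monomial p.1.2 (1 : L) * g p.1.1) := by
  classical
  obtain ⟨n, c, u, rfl⟩ := Submodule.mem_span_set'.1 hf
  rw [map_sum]
  apply Submodule.sum_mem
  intro i _
  obtain ⟨s, hs⟩ := (u i).2
  rw [← hs, smul_eq_mul]
  have h0 : c i * g s = ∑ γ ∈ (c i).support, monomial γ (coeff γ (c i)) * g s := by
    rw [← Finset.sum_mul, support_sum_monomial_coeff]
  rw [h0, map_sum]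
  apply Submodule.sum_mem
  intro γ _
  have h1 : (monomial γ (coeff γ (c i)) : MvPolynomial (Sig m) L) =
      coeff γ (c i) • monomial γ 1 := by
    rw [smul_monomial, smul_eq_mul, mul_one]
  rw [h1, smul_mul_assoc, map_smul]
  apply Submodule.smul_mem
  have h2 : IsWeightedHomogeneous (wt m) (monomial γ (1 : L) * g s)
      (Finsupp.weight (wt m) γ + δ s) :=
    (isWeightedHomogeneous_monomial _ _ _ rfl).mul (hg s)
  by_cases h3 : Finsupp.weight (wt m) γ + δ s = N
  · subst h3
    rw [h2.weightedHomogeneousComponent_same]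
    exact Submodule.subset_span ⟨⟨(s, γ), rfl⟩, rfl⟩
  · rw [h2.weightedHomogeneousComponent_ne N (Ne.symm h3)]
    exact Submodule.zero_mem _

/-- a nonzero minor -/
lemma exists_rows {L : Type} [Field L] {B R : Type} [Fintype B] [DecidableEq B] (v : R → B → L)
    (h : Submodule.span L (Set.range v) = ⊤) :
    ∃ σ : B → R, (Matrix.of fun i j => v (σ i) j).det ≠ 0 := by
  obtain ⟨κ, a, -, hsp, hli⟩ := exists_linearIndependent' L v
  rw [h] at hsp
  let b := Module.Basis.mk hli hsp.ge
  have e : B ≃ κ := (Pi.basisFun L B).indexEquiv b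
  refine ⟨fun i => a (e i), ?_⟩
  have h1 : LinearIndependent L (fun i => v (a (e i))) := hli.comp e e.injective
  have h2 : Submodule.span L (Set.range fun i => v (a (e i))) = ⊤ := by
    rw [← hsp]
    congr 1
    ext x
    constructor
    · rintro ⟨i, rfl⟩
      exact ⟨e i, rfl⟩
    · rintro ⟨i, rfl⟩
      exact ⟨e.symm i, by simp⟩
  have h3 := ((Pi.basisFun L B).is_basis_iff_det).1 ⟨h1, h2⟩
  rw [Pi.basisFun_det_apply] at h3
  exact h3.ne_zero

theorem s_ELIM : S_ELIM := by
  classical
  intro k L _ _ _ _ r m D κG _ G b hb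
  constructor
  · -- the vanishing ideal
    let J : Ideal (MvPolynomial (Mon m D) k) :=
      ⨅ w : SV (L := L) G D, RingHom.ker (sp (k := k) D w.1)
    have hJ : ∀ a, a ∈ J ↔ ∀ w ∈ SV (L := L) G D, aeval w a = 0 := by
      intro a
      simp only [J, Submodule.mem_iInf, RingHom.mem_ker, sp_apply, Subtype.forall]
    refine ⟨J, ?_⟩
    ext w
    rw [mem_zeroLocus_iff]
    constructor
    · intro hw a ha
      exact (hJ a).1 ha w hw
    · intro hw
      by_contra hcon
      rw [SV_iff] at hcon
      push Not at hcon
      set g : κG ⊕ (Mon m D × Mon m D) → MvPolynomial (Sig m) L :=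
        fun s => map (sp (k := k) D w) (gen G D s) with hg
      obtain ⟨N, hN⟩ := exists_N g (fun y hy hR => by
        obtain ⟨s, hs⟩ := hcon y hR
        exact hs (hy s))
      have hgh : ∀ s, IsWeightedHomogeneous (wt m) (g s) (bdeg D b s) := by
        intro s d hd
        rw [hg, coeff_map] at hd
        apply gen_hom G D hb s
        intro h
        rw [h, map_zero] at hd
        exact hd rfl
      set Nv : Fin r → ℕ := fun _ => N with hNv
      have : Fintype (Mon m Nv) := Fintype.ofFinite _
      let R : Type := {p : (κG ⊕ (Mon m D × Mon m D)) × (Sig m →₀ ℕ) //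
        Finsupp.weight (wt m) p.2 + bdeg D b p.1 = Nv}
      let row : R → Mon m Nv → MvPolynomial (Mon m D) k := fun p β =>
        coeff β.1 (monomial p.1.2 1 * gen G D p.1.1)
      have hrow : ∀ (w' : Mon m D → L) (p : R) (β : Mon m Nv),
          sp (k := k) D w' (row p β) = coeff β.1 (monomial p.1.2 1 *
            map (sp (k := k) D w') (gen G D p.1.1)) := by
        intro w' p β
        have h1 : (monomial p.1.2 (1 : L)) * map (sp (k := k) D w') (gen G D p.1.1) =
            map (sp (k := k) D w') (monomial p.1.2 1 * gen G D p.1.1) := by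
          rw [map_mul, map_monomial, RingHom.map_one]
        rw [h1, coeff_map]
      -- the rows span
      have hspan : Submodule.span L (Set.range fun (p : R) (β : Mon m Nv) =>
          sp (k := k) D w (row p β)) = ⊤ := by
        rw [eq_top_iff, ← (Pi.basisFun L (Mon m Nv)).span_eq, Submodule.span_le]
        rintro _ ⟨β, rfl⟩
        have h1 := span_comp g (bdeg D b) hgh Nv (hN β)
        rw [(isWeightedHomogeneous_monomial (wt m) β.1 (1 : L)
          β.2).weightedHomogeneousComponent_same] at h1
        let cf : MvPolynomial (Sig m) L →ₗ[L] (Mon m Nv → L) :=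
          LinearMap.pi fun β' => lcoeff L β'.1
        have h2 := Submodule.mem_map_of_mem (f := cf) h1
        rw [Submodule.map_span, ← Set.range_comp] at h2
        have h3 : cf (monomial β.1 1) = Pi.basisFun L (Mon m Nv) β := by
          funext β'
          simp only [cf, LinearMap.pi_apply, lcoeff_apply, coeff_monomial, Pi.basisFun_apply,
            Pi.single_apply]
          by_cases h4 : β' = β
          · rw [if_pos h4, h4, if_pos rfl]
          · rw [if_neg h4, if_neg fun h5 => h4 (Subtype.ext h5.symm)]
        rw [h3] at h2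
        have h4 : (cf ∘ fun p : R => monomial p.1.2 (1 : L) * g p.1.1) =
            fun (p : R) (β : Mon m Nv) => sp (k := k) D w (row p β) := by
          funext p β'
          rw [hrow]
          rfl
        rw [← h4]
        exact h2
      obtain ⟨σ, hσ⟩ := exists_rows _ hspan
      -- the minor
      set a : MvPolynomial (Mon m D) k := (Matrix.of fun i j => row (σ i) j).det with ha
      have hsp : ∀ w' : Mon m D → L, aeval w' a =
          (Matrix.of fun i j => sp (k := k) D w' (row (σ i) j)).det := by
        intro w'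
        rw [← sp_apply, ha, RingHom.map_det]
        rfl
      have haJ : a ∈ J := by
        rw [hJ]
        intro w' hw'
        obtain ⟨y, hy, hy0⟩ := (SV_iff G D w').1 hw'
        rw [hsp, ← Matrix.exists_mulVec_eq_zero_iff]
        refine ⟨fun β => mon y β, ?_, ?_⟩
        · -- a monomial which does not vanish
          choose i hi using hy
          intro h0
          let β : Sig m →₀ ℕ := Finsupp.equivFunOnFinite.symm
            fun x : Sig m => if x.2 = i x.1 then N else 0
          have hβ : Finsupp.weight (wt m) β = Nv := by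
            funext κ
            rw [weight_apply]
            simp [β, hNv]
          have h1 := congrFun h0 ⟨β, hβ⟩
          simp only [mon, Pi.zero_apply] at h1
          rw [Finset.prod_eq_zero_iff] at h1
          obtain ⟨x, -, hx⟩ := h1
          by_cases h2 : x.2 = i x.1
          · have h4 : y x ≠ 0 := by
              have := hi x.1
              rw [← h2] at this
              exact this
            exact pow_ne_zero _ h4 hx
          · have h3 : β x = 0 := by simp [β, h2]
            rw [h3, pow_zero] at hx
            exact one_ne_zero hx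
        · funext β'
          rw [Matrix.mulVec, Pi.zero_apply]
          have h1 : eval y (monomial (σ β').1.2 1 * map (sp (k := k) D w')
              (gen G D (σ β').1.1)) = 0 := by
            rw [eval_mul, hy0, mul_zero]
          have h2 : IsWeightedHomogeneous (wt m) (monomial (σ β').1.2 (1 : L) *
              map (sp (k := k) D w') (gen G D (σ β').1.1)) Nv := by
            have h3 : IsWeightedHomogeneous (wt m) (monomial (σ β').1.2 (1 : L) *
              map (sp (k := k) D w') (gen G D (σ β').1.1))
                (Finsupp.weight (wt m) (σ β').1.2 + bdeg D b (σ β').1.1) := ?_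
            · rw [(σ β').2] at h3
              exact h3
            apply (isWeightedHomogeneous_monomial _ _ _ rfl).mul
            intro d hd
            rw [coeff_map] at hd
            apply gen_hom G D hb
            intro h
            rw [h, map_zero] at hd
            exact hd rfl
          rw [← h1, dotProduct]
          set Q := monomial (σ β').1.2 (1 : L) *
              map (sp (k := k) D w') (gen G D (σ β').1.1) with hQ
          rw [eval_eq]
          have h3 : ∑ d ∈ Q.support, coeff d Q * ∏ i ∈ d.support, y i ^ d i =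
              ∑ d ∈ (Finset.univ : Finset (Mon m Nv)).map (Function.Embedding.subtype _),
                coeff d Q * ∏ i ∈ d.support, y i ^ d i := by
            apply Finset.sum_subset
            · intro d hd
              rw [Finset.mem_map]
              exact ⟨⟨d, h2 (mem_support_iff.1 hd)⟩, Finset.mem_univ _, rfl⟩
            · intro d _ hd
              rw [notMem_support_iff.1 hd, zero_mul]
          rw [h3, Finset.sum_map]
          apply Finset.sum_congr rfl
          intro β _
          rw [Matrix.of_apply, hrow]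
          congr 1
          simp only [mon, Function.Embedding.coe_subtype]
          symm
          apply Finset.prod_subset (Finset.subset_univ _)
          intro x _ hx
          rw [Finsupp.notMem_support_iff.1 hx, pow_zero]
      exact hσ ((hsp w).symm.trans (hw a haJ))
  · rintro a w ⟨y, h1, h2, h3⟩
    refine ⟨y, h1, h2, fun μ ν => ?_⟩
    rw [Pi.smul_apply, Pi.smul_apply, smul_mul_assoc, smul_mul_assoc, h3 μ ν]

end Pool.Agent.L7h76.MG
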